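import Mathlib

/-!
# Reduction of matrices, LLS cycles and Gauss-Kuzmin numbers (definitions)

The definitions of problem `MP_0a7e48_nt`.
-/

set_option autoImplicit false

namespace Pool.Agent.R935.GKR

/-- Integer `2 × 2` matrices; for `M = (p r; q s)` we have `M 0 0 = p`, `M 0 1 = r`, `M 1 0 = q`,
`M 1 1 = s`. -/
abbrev Mat := Matrix (Fin 2) (Fin 2) ℤ

/-- The finite continued fraction `[b₁; b₂ : ⋯ : b_k]` (of a nonempty list). -/
noncomputable def cf : List ℕ → ℝ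
  | [] => 0
  | [b] => b
  | b :: c :: l => b + 1 / cf (c :: l)

/-- The list with the last entry increased by one. -/
def incLast : List ℕ → List ℕ
  | [] => []
  | [b] => [b + 1]
  | b :: c :: l => b :: incLast (c :: l)

/-- `GK(Q) = log₂ (γ (1 + β) / (β (1 + γ)))`, `β = [b₁; ⋯ : b_{2n-1}]`,
`γ = [b₁; ⋯ : b_{2n-1} + 1]`. -/
noncomputable def GK (Q : List ℕ) : ℝ :=
  Real.logb 2 (cf (incLast Q) * (1 + cf Q) / (cf Q * (1 + cf (incLast Q))))

/-- `M_a = (0 1; 1 a)`. -/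
def Ma (a : ℕ) : Mat := !![0, 1; 1, (a : ℤ)]

/-- `M_P = M_{a₁} M_{a₂} ⋯ M_{a_{2n}}`. -/
def MP (P : List ℕ) : Mat := (P.map Ma).prod

/-- The class of `P` is the LLS cycle of `M`: `M` is `GL(2, ℤ)`-conjugate to `M_P` or to `-M_P`. -/
def IsLLS (P : List ℕ) (M : Mat) : Prop :=
  ∃ g : Matrix.GeneralLinearGroup (Fin 2) ℤ,
    (g : Mat) * M * ((g⁻¹ : Matrix.GeneralLinearGroup (Fin 2) ℤ) : Mat) = MP P ∨
    (g : Mat) * M * ((g⁻¹ : Matrix.GeneralLinearGroup (Fin 2) ℤ) : Mat) = -MP P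

/-- Step 1: if `q < 0`, negate `M`. -/
def step1 (M : Mat) : Mat := if M 1 0 < 0 then -M else M

/-- Step 2: `k = ⌊p / q⌋`, `C = (1 -k; 0 1)`, replace `M` by `C M C⁻¹`. -/
def step2 (M : Mat) : Mat :=
  !![1, -(M 0 0 / M 1 0); 0, 1] * M * !![1, M 0 0 / M 1 0; 0, 1]

/-- Step 3 of the algorithm (and what follows it): `Step3 M M'` says that the algorithm, started
with step 3 and the matrix `M`, halts and returns `M'`. In (c) `D = (-1 1; 0 1) = D⁻¹`. -/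
inductive Step3 : Mat → Mat → Prop
  | a (M : Mat) : M 1 0 = 1 → Step3 M M
  | b (M : Mat) : 1 < M 1 0 → M 1 0 < M 1 1 → Step3 M M
  | c (M M' : Mat) : 1 < M 1 0 → M 1 1 < -M 1 0 →
      Step3 (-(!![-1, 1; 0, 1] * M * !![-1, 1; 0, 1])) M' → Step3 M M'
  | d (M M' : Mat) : 1 < M 1 0 → |M 1 1| < M 1 0 →
      Step3 (step2 (step1 !![M 1 1, M 1 0; M 0 1, M 0 0])) M' → Step3 M M'

/-- The algorithm, applied to `M`, halts and returns `M'`. -/
def Returns (M M' : Mat) : Prop := Step3 (step2 (step1 M)) M'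

/-- The condition on the first column `(p, q)` of the output: it is `(0, 1)` if `P = (1, a₂)`, and
`q / p = [a₁; ⋯ : a_{2n-1}]` for all other `P`. -/
def ColumnCond (P : List ℕ) (M' : Mat) : Prop :=
  if P.length = 2 ∧ P.head? = some 1 then M' 0 0 = 0 ∧ M' 1 0 = 1
  else (M' 1 0 : ℝ) / (M' 0 0 : ℝ) = cf P.dropLast

/-- `#_N(P)`. -/
noncomputable def num (N : ℕ) (P : List ℕ) : ℕ :=
  Set.ncard {M : Matrix.SpecialLinearGroup (Fin 2) ℤ |
    (∀ i j, |(M : Mat) i j| ≤ (N : ℤ)) ∧ IsLLS P (M : Mat) ∧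
      ∃ M' : Mat, Returns (M : Mat) M' ∧ ColumnCond P M'}

end Pool.Agent.R935.GKR
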