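import Pool.Agent.R935.GKR.Defs

/-! # The algorithm on an explicit family of matrices -/

set_option autoImplicit false

namespace Pool.Agent.R935.GKR

/-- quadruples `(p, r, q, s)` -/
structure Qd where
  p : ℤ
  r : ℤ
  q : ℤ
  s : ℤ
  deriving DecidableEq

def Qd.m (X : Qd) : Mat := !![X.p, X.r; X.q, X.s]

/-- `(0,1)`-step backwards: `- M_c X M_c⁻¹`. -/
def st (c : ℕ) (X : Qd) : Qd :=
  ⟨c * X.q - X.s, -X.q, c * c * X.q + c * X.p - c * X.s - X.r, -(X.p + c * X.q)⟩

/-- the output matrix `(1 1; a a+1)` -/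
def X0 (a : ℕ) : Qd := ⟨1, 1, a, a + 1⟩

def T (a : ℕ) (l : List ℕ) : Qd := l.foldr st (X0 a)

/-- reduced quadruples: `0 ≤ p < q`. -/
def Red (X : Qd) : Prop := 0 ≤ X.p ∧ X.p < X.q

/-- valid lists: nonempty, all entries positive, last entry at least three -/
def Valid (l : List ℕ) : Prop := l ≠ [] ∧ (∀ c ∈ l, 1 ≤ c) ∧ ∀ h : l ≠ [], 3 ≤ l.getLast h

/-- good quadruples -/
structure Good (X : Qd) : Prop where
  p0 : 0 ≤ X.p
  pq : X.p < X.q
  q1 : 1 < X.q
  s0 : X.s < 0
  sq : -X.q < X.s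
  r0 : X.r < 0

theorem good_base (a c : ℕ) (ha : 1 ≤ a) (hc : 3 ≤ c) : Good (st c (X0 a)) := by
  have ha' : (1 : ℤ) ≤ a := by exact_mod_cast ha
  have hc' : (3 : ℤ) ≤ c := by exact_mod_cast hc
  constructor <;> simp only [st, X0] <;> nlinarith [mul_nonneg (sub_nonneg.2 ha') (sub_nonneg.2 hc'),
    mul_nonneg (mul_nonneg (sub_nonneg.2 ha') (sub_nonneg.2 hc')) (sub_nonneg.2 hc'),
    mul_nonneg (sub_nonneg.2 hc') (sub_nonneg.2 hc')]

theorem good_step (X : Qd) (hX : Good X) (c : ℕ) (hc : 1 ≤ c) : Good (st c X) := by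
  obtain ⟨h1, h2, h3, h4, h5, h6⟩ := hX
  have hc' : (1 : ℤ) ≤ c := by exact_mod_cast hc
  have e1 : (0 : ℤ) ≤ (c - 1) * X.q := mul_nonneg (by linarith) (by linarith)
  have e2 : (0 : ℤ) ≤ (c - 1) * X.p := mul_nonneg (by linarith) (by linarith)
  have e3 : (0 : ℤ) ≤ (c - 1) * (-X.s) := mul_nonneg (by linarith) (by linarith)
  have e4 : (0 : ℤ) ≤ (c - 1) * ((c : ℤ) * X.q) := mul_nonneg (by linarith) (mul_nonneg (by linarith) (by linarith))
  constructor <;> simp only [st] <;> nlinarith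

theorem valid_cons {c : ℕ} {l : List ℕ} (hl : l ≠ []) : Valid (c :: l) ↔ 1 ≤ c ∧ Valid l := by
  constructor
  · rintro ⟨_, h2, h3⟩
    refine ⟨h2 c (by simp), hl, fun b hb => h2 b (by simp [hb]), fun h => ?_⟩
    have := h3 (by simp)
    rwa [List.getLast_cons h] at this
  · rintro ⟨h1, _, h2, h3⟩
    refine ⟨by simp, ?_, fun h => ?_⟩
    · intro b hb
      rcases List.mem_cons.1 hb with rfl | hb
      · exact h1
      · exact h2 b hb
    · rw [List.getLast_cons hl]
      exact h3 hl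

theorem valid_single {c : ℕ} : Valid [c] ↔ 3 ≤ c := by
  constructor
  · rintro ⟨_, _, h⟩
    simpa using h (by simp)
  · intro h
    refine ⟨by simp, ?_, fun _ => by simpa using h⟩
    intro b hb
    simp only [List.mem_singleton] at hb
    omega

theorem good_T (a : ℕ) (ha : 1 ≤ a) : ∀ l : List ℕ, Valid l → Good (T a l)
  | [], h => (h.1 rfl).elim
  | [c], h => good_base a c ha (valid_single.1 h)
  | c :: d :: l, h => by
    have h' := (valid_cons (by simp)).1 h
    exact good_step _ (good_T a ha (d :: l) h'.2) c h'.1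

theorem good_red {X : Qd} (h : Good X) : Red X := ⟨h.p0, h.pq⟩

theorem red_X0 (a : ℕ) (ha : 2 ≤ a) : Red (X0 a) := ⟨by simp [X0], by simp [X0]; omega⟩

/-- `step2 (step1 X) = X` for reduced `X` -/
theorem prep_red (X : Qd) (h : Red X) : step2 (step1 X.m) = X.m := by
  obtain ⟨h1, h2⟩ := h
  have hq : ¬ (X.q < 0) := by omega
  have hk : X.p / X.q = 0 := Int.ediv_eq_zero_of_lt h1 h2
  have e1 : step1 X.m = X.m := by
    simp [step1, Qd.m, hq]
  rw [e1]
  simp only [step2, Qd.m]
  simp only [Matrix.of_apply, Matrix.cons_val', Matrix.cons_val_zero, Matrix.cons_val_one]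
  rw [hk]
  simp

theorem prep_swap (X : Qd) (h : Red X) (c : ℕ) :
    step2 (step1 !![(st c X).m 1 1, (st c X).m 1 0; (st c X).m 0 1, (st c X).m 0 0]) = X.m := by
  obtain ⟨h1, h2⟩ := h
  have hq : 0 < X.q := by omega
  have e0 : !![(st c X).m 1 1, (st c X).m 1 0; (st c X).m 0 1, (st c X).m 0 0] =
      !![-(X.p + c * X.q), c * c * X.q + c * X.p - c * X.s - X.r; -X.q, c * X.q - X.s] := by
    simp [st, Qd.m]
  have e1 : step1 !![(st c X).m 1 1, (st c X).m 1 0; (st c X).m 0 1, (st c X).m 0 0] =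
      !![X.p + c * X.q, -(c * c * X.q + c * X.p - c * X.s - X.r); X.q, -(c * X.q - X.s)] := by
    rw [e0]
    unfold step1
    rw [if_pos (by simpa using hq)]
    ext i j
    fin_cases i <;> fin_cases j <;> simp
  have hk : (X.p + c * X.q) / X.q = c := by
    rw [Int.add_mul_ediv_right _ _ hq.ne', Int.ediv_eq_zero_of_lt h1 h2, zero_add]
  rw [e1]
  simp only [step2, Qd.m]
  simp only [Matrix.of_apply, Matrix.cons_val', Matrix.cons_val_zero, Matrix.cons_val_one]
  rw [hk]
  ext i j
  fin_cases i <;> fin_cases j <;> simp [Matrix.mul_apply, Fin.sum_univ_two] <;> ring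

theorem step3_T (a : ℕ) (ha : 2 ≤ a) : ∀ l : List ℕ, Valid l → Step3 (T a l).m (X0 a).m
  | [], h => (h.1 rfl).elim
  | [c], h => by
    have hg := good_T a (by omega) [c] h
    refine Step3.d _ _ ?_ ?_ ?_
    · simpa [Qd.m] using hg.q1
    · have h1 := hg.s0
      have h2 := hg.sq
      simp only [Qd.m]
      simp only [Matrix.of_apply, Matrix.cons_val', Matrix.cons_val_zero, Matrix.cons_val_one]
      rw [abs_of_neg h1]
      linarith
    · have := prep_swap (X0 a) (red_X0 a ha) c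
      have e : T a [c] = st c (X0 a) := rfl
      rw [e, this]
      refine Step3.b _ ?_ ?_ <;> simp [X0, Qd.m]
      omega
  | c :: d :: l, h => by
    have h' := (valid_cons (by simp)).1 h
    have hg := good_T a (by omega) (c :: d :: l) h
    have hg' := good_T a (by omega) (d :: l) h'.2
    refine Step3.d _ _ ?_ ?_ ?_
    · simpa [Qd.m] using hg.q1
    · have h1 := hg.s0
      have h2 := hg.sq
      simp only [Qd.m]
      simp only [Matrix.of_apply, Matrix.cons_val', Matrix.cons_val_zero, Matrix.cons_val_one]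
      rw [abs_of_neg h1]
      linarith
    · have := prep_swap (T a (d :: l)) (good_red hg') c
      have e : T a (c :: d :: l) = st c (T a (d :: l)) := rfl
      rw [e, this]
      exact step3_T a ha (d :: l) h'.2

theorem returns_T (a : ℕ) (ha : 2 ≤ a) (l : List ℕ) (h : Valid l) :
    Returns (T a l).m (X0 a).m := by
  unfold Returns
  rw [prep_red _ (good_red (good_T a (by omega) l h))]
  exact step3_T a ha l h

theorem columnCond (a : ℕ) (ha : 2 ≤ a) : ColumnCond [a, 1] (X0 a).m := by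
  unfold ColumnCond
  rw [if_neg (by simp; omega)]
  simp [X0, Qd.m, cf]

/-! ### injectivity -/

theorem st_inj {X Y : Qd} (hX : Red X) (hY : Red Y) {c d : ℕ} (h : st c X = st d Y) :
    c = d ∧ X = Y := by
  obtain ⟨h1, h2⟩ := hX
  obtain ⟨h3, h4⟩ := hY
  simp only [st, Qd.mk.injEq] at h
  obtain ⟨e1, e2, e3, e4⟩ := h
  have hq : X.q = Y.q := by linarith
  have e5 : X.p + c * X.q = Y.p + d * X.q := by rw [hq] at e4 ⊢; linarith
  have hqp : 0 < X.q := by omega
  have hcd : (c : ℤ) = d := by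
    have a1 : (X.p + c * X.q) / X.q = c := by
      rw [Int.add_mul_ediv_right _ _ hqp.ne', Int.ediv_eq_zero_of_lt h1 h2, zero_add]
    have a2 : (Y.p + d * X.q) / X.q = d := by
      rw [Int.add_mul_ediv_right _ _ hqp.ne', Int.ediv_eq_zero_of_lt h3 (by omega), zero_add]
    rw [← a1, ← a2, e5]
  have hcd' : c = d := by exact_mod_cast hcd
  subst hcd'
  have hp : X.p = Y.p := by linarith
  have hs : X.s = Y.s := by rw [hq] at e1; linarith
  have hr : X.r = Y.r := by rw [hq, hp, hs] at e3; linarith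
  refine ⟨rfl, ?_⟩
  cases X; cases Y
  simp_all

theorem T_inj (a : ℕ) (ha : 2 ≤ a) : ∀ l l' : List ℕ, Valid l → Valid l' → T a l = T a l' → l = l'
  | [], _, h, _, _ => (h.1 rfl).elim
  | _ :: _, [], _, h, _ => (h.1 rfl).elim
  | [c], [d], _, _, h => by
    have := (st_inj (red_X0 a ha) (red_X0 a ha) (h : st c (X0 a) = st d (X0 a))).1
    rw [this]
  | [c], d :: e :: l, _, h2, h => by
    have h' := (valid_cons (by simp)).1 h2
    have hg := good_T a (by omega) (e :: l) h'.2
    have := (st_inj (red_X0 a ha) (good_red hg) (h : st c (X0 a) = st d (T a (e :: l)))).2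
    have hr := hg.r0
    rw [← this] at hr
    simp [X0] at hr
  | d :: e :: l, [c], h2, _, h => by
    have h' := (valid_cons (by simp)).1 h2
    have hg := good_T a (by omega) (e :: l) h'.2
    have := (st_inj (good_red hg) (red_X0 a ha) (h : st d (T a (e :: l)) = st c (X0 a))).2
    have hr := hg.r0
    rw [this] at hr
    simp [X0] at hr
  | c :: e :: l, d :: f :: l', h1, h2, h => by
    have h1' := (valid_cons (by simp)).1 h1
    have h2' := (valid_cons (by simp)).1 h2
    have hg1 := good_T a (by omega) (e :: l) h1'.2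
    have hg2 := good_T a (by omega) (f :: l') h2'.2
    have := st_inj (good_red hg1) (good_red hg2) (h : st c (T a (e :: l)) = st d (T a (f :: l')))
    rw [this.1, T_inj a ha (e :: l) (f :: l') h1'.2 h2'.2 this.2]

/-! ### conjugacy and size -/

/-- the product of the matrices `M_c` -/
def G (l : List ℕ) : Mat := (l.map Ma).prod

theorem Ma_det (c : ℕ) : (Ma c).det = -1 := by simp [Ma, Matrix.det_fin_two]

/-- the adjugate of `M_c` is `(c -1; -1 0)` and `M_c⁻¹ = (-c 1; 1 0)` -/
def Mi (c : ℕ) : Mat := !![-(c : ℤ), 1; 1, 0]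

theorem Ma_mul_Mi (c : ℕ) : Ma c * Mi c = 1 := by
  ext i j
  fin_cases i <;> fin_cases j <;> simp [Ma, Mi, Matrix.mul_apply, Fin.sum_univ_two]

theorem Mi_mul_Ma (c : ℕ) : Mi c * Ma c = 1 := by
  ext i j
  fin_cases i <;> fin_cases j <;> simp [Ma, Mi, Matrix.mul_apply, Fin.sum_univ_two]

theorem st_eq (c : ℕ) (X : Qd) : (st c X).m = -(Ma c * X.m * Mi c) := by
  ext i j
  fin_cases i <;> fin_cases j <;>
    simp [Ma, Mi, st, Qd.m, Matrix.mul_apply, Fin.sum_univ_two] <;> ring

def Gi : List ℕ → Mat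
  | [] => 1
  | c :: l => Gi l * Mi c

theorem G_mul_Gi : ∀ l : List ℕ, G l * Gi l = 1
  | [] => by simp [G, Gi]
  | c :: l => by
    have h := G_mul_Gi l
    have : G (c :: l) = Ma c * G l := by simp [G]
    rw [this, Gi]
    calc Ma c * G l * (Gi l * Mi c) = Ma c * (G l * Gi l) * Mi c := by simp only [Matrix.mul_assoc]
      _ = 1 := by rw [h, Matrix.mul_one, Ma_mul_Mi]

theorem Gi_mul_G : ∀ l : List ℕ, Gi l * G l = 1
  | [] => by simp [G, Gi]
  | c :: l => by
    have h := Gi_mul_G l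
    have : G (c :: l) = Ma c * G l := by simp [G]
    rw [this, Gi]
    calc Gi l * Mi c * (Ma c * G l) = Gi l * (Mi c * Ma c) * G l := by simp only [Matrix.mul_assoc]
      _ = 1 := by rw [Mi_mul_Ma, Matrix.mul_one, h]

theorem T_eq (a : ℕ) : ∀ l : List ℕ, (T a l).m = G l * (X0 a).m * Gi l ∨
    (T a l).m = -(G l * (X0 a).m * Gi l)
  | [] => by left; simp [G, Gi, T]
  | c :: l => by
    have hG : G (c :: l) = Ma c * G l := by simp [G]
    have e : T a (c :: l) = st c (T a l) := rfl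
    rw [e, st_eq, hG, Gi]
    rcases T_eq a l with h | h
    · right
      rw [h]
      simp only [Matrix.mul_assoc]
    · left
      rw [h]
      simp only [Matrix.mul_assoc, Matrix.neg_mul, Matrix.mul_neg, neg_neg]

theorem T_det (a : ℕ) (l : List ℕ) : (T a l).m.det = 1 := by
  have h0 : (X0 a).m.det = 1 := by simp [X0, Qd.m, Matrix.det_fin_two]
  have h1 : (G l).det * (Gi l).det = 1 := by
    rw [← Matrix.det_mul, G_mul_Gi, Matrix.det_one]
  rcases T_eq a l with h | h
  · rw [h, Matrix.det_mul, Matrix.det_mul, h0, mul_one, h1]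
  · rw [h, Matrix.det_neg, Matrix.det_mul, Matrix.det_mul, h0, mul_one, h1]
    simp

theorem T_LLS (a : ℕ) (l : List ℕ) : IsLLS [a, 1] (T a l).m := by
  have hMP : MP [a, 1] = (X0 a).m := by
    simp only [MP, List.map_cons, List.map_nil, List.prod_cons, List.prod_nil, mul_one]
    ext i j
    fin_cases i <;> fin_cases j <;>
      simp [Ma, X0, Qd.m, Matrix.mul_apply, Fin.sum_univ_two, add_comm]
  refine ⟨⟨Gi l, G l, Gi_mul_G l, G_mul_Gi l⟩, ?_⟩
  rw [hMP]
  have hinv : (((⟨Gi l, G l, Gi_mul_G l, G_mul_Gi l⟩ : Matrix.GeneralLinearGroup (Fin 2) ℤ)⁻¹ :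
      Matrix.GeneralLinearGroup (Fin 2) ℤ) : Mat) = G l := rfl
  rw [hinv]
  change Gi l * (T a l).m * G l = _ ∨ Gi l * (T a l).m * G l = _
  rcases T_eq a l with h | h
  · left
    rw [h]
    calc Gi l * (G l * (X0 a).m * Gi l) * G l = (Gi l * G l) * (X0 a).m * (Gi l * G l) := by
          simp only [Matrix.mul_assoc]
      _ = _ := by rw [Gi_mul_G, Matrix.one_mul, Matrix.mul_one]
  · right
    rw [h]
    calc Gi l * (-(G l * (X0 a).m * Gi l)) * G l = -((Gi l * G l) * (X0 a).m * (Gi l * G l)) := by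
          simp only [Matrix.mul_assoc, Matrix.neg_mul, Matrix.mul_neg]
      _ = _ := by rw [Gi_mul_G, Matrix.one_mul, Matrix.mul_one]

end Pool.Agent.R935.GKR
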