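import Pool.Agent.R935.GKR.Low

/-! # Lower bound for `#_N((a,1))` -/

set_option autoImplicit false

namespace Pool.Agent.R935.GKR

/-! ### size -/

structure Mon (g : Mat) : Prop where
  h0 : 0 ≤ g 0 0
  h1 : g 0 0 ≤ g 0 1
  h2 : g 0 0 ≤ g 1 0
  h3 : g 0 1 ≤ g 1 1
  h4 : g 1 0 ≤ g 1 1

theorem mon_G : ∀ l : List ℕ, l ≠ [] → (∀ c ∈ l, 1 ≤ c) → Mon (G l)
  | [], h, _ => (h rfl).elim
  | [c], _, h => by
    have hc : (1 : ℤ) ≤ c := by exact_mod_cast h c (by simp)
    constructor <;> simp [G, Ma] <;> omega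
  | c :: d :: l, _, h => by
    have hc : (1 : ℤ) ≤ c := by exact_mod_cast h c (by simp)
    obtain ⟨g0, g1, g2, g3, g4⟩ := mon_G (d :: l) (by simp) (fun b hb => h b (List.mem_cons_of_mem _ hb))
    have e : G (c :: d :: l) = Ma c * G (d :: l) := by simp [G]
    rw [e]
    have a00 : (Ma c * G (d :: l)) 0 0 = G (d :: l) 1 0 := by
      simp [Ma, Matrix.mul_apply, Fin.sum_univ_two]
    have a01 : (Ma c * G (d :: l)) 0 1 = G (d :: l) 1 1 := by
      simp [Ma, Matrix.mul_apply, Fin.sum_univ_two]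
    have a10 : (Ma c * G (d :: l)) 1 0 = G (d :: l) 0 0 + c * G (d :: l) 1 0 := by
      simp [Ma, Matrix.mul_apply, Fin.sum_univ_two]
    have a11 : (Ma c * G (d :: l)) 1 1 = G (d :: l) 0 1 + c * G (d :: l) 1 1 := by
      simp [Ma, Matrix.mul_apply, Fin.sum_univ_two]
    constructor
    · rw [a00]; linarith
    · rw [a00, a01]; exact g4
    · rw [a00, a10]; nlinarith
    · rw [a01, a11]; nlinarith
    · rw [a10, a11]; nlinarith

theorem Gi_eq (l : List ℕ) : Gi l = (G l).det • (G l).adjugate := by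
  have h1 : (G l).det * (Gi l).det = 1 := by
    rw [← Matrix.det_mul, G_mul_Gi, Matrix.det_one]
  have h2 : (G l).adjugate = (G l).det • Gi l := by
    calc (G l).adjugate = (G l).adjugate * (G l * Gi l) := by rw [G_mul_Gi, Matrix.mul_one]
      _ = ((G l).adjugate * G l) * Gi l := by rw [Matrix.mul_assoc]
      _ = _ := by rw [Matrix.adjugate_mul, Matrix.smul_mul, Matrix.one_mul]
  have h3 : (G l).det * (G l).det = 1 := by
    rcases Int.isUnit_iff.1 (IsUnit.of_mul_eq_one _ h1) with h | h <;> rw [h] <;> norm_num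
  rw [h2, smul_smul, h3, one_smul]

theorem T_bound (a : ℕ) (l : List ℕ) (hl : l ≠ []) (h : ∀ c ∈ l, 1 ≤ c) (i j : Fin 2) :
    |(T a l).m i j| ≤ (2 * a + 3) * (G l 1 1) ^ 2 := by
  have hm := mon_G l hl h
  have hdet : |(G l).det| = 1 := by
    have h1 : (G l).det * (Gi l).det = 1 := by
      rw [← Matrix.det_mul, G_mul_Gi, Matrix.det_one]
    rcases Int.isUnit_iff.1 (IsUnit.of_mul_eq_one _ h1) with h | h <;> rw [h] <;> norm_num
  have key : |(T a l).m i j| = |(G l * (X0 a).m * (G l).adjugate) i j| := by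
    rcases T_eq a l with h | h
    · rw [h, Gi_eq, Matrix.mul_smul, Matrix.smul_apply, smul_eq_mul, abs_mul, hdet, one_mul]
    · rw [h, Gi_eq, Matrix.mul_smul, Matrix.neg_apply, Matrix.smul_apply, smul_eq_mul, abs_neg,
        abs_mul, hdet, one_mul]
  rw [key]
  obtain ⟨g0, g1, g2, g3, g4⟩ := hm
  set x := G l 0 0 with hx
  set y := G l 0 1 with hy
  set z := G l 1 0 with hz
  set w := G l 1 1 with hw
  have hG : G l = !![x, y; z, w] := by
    ext i j
    fin_cases i <;> fin_cases j <;> rfl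
  have ha : (0 : ℤ) ≤ a := by positivity
  have hx0 : 0 ≤ x := g0
  have hy0 : 0 ≤ y := by linarith
  have hz0 : 0 ≤ z := by linarith
  have hw0 : 0 ≤ w := by linarith
  have hxw : x ≤ w := by linarith
  have p1 : x * w ≤ w * w := mul_le_mul_of_nonneg_right hxw hw0
  have p2 : y * w ≤ w * w := mul_le_mul_of_nonneg_right g3 hw0
  have p3 : z * w ≤ w * w := mul_le_mul_of_nonneg_right g4 hw0
  have p4 : x * z ≤ w * w := mul_le_mul hxw g4 hz0 hw0
  have p5 : y * z ≤ w * w := mul_le_mul g3 g4 hz0 hw0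
  have p6 : x * x ≤ w * w := mul_le_mul hxw hxw hx0 hw0
  have p7 : x * y ≤ w * w := mul_le_mul hxw g3 hy0 hw0
  have p8 : y * y ≤ w * w := mul_le_mul g3 g3 hy0 hw0
  have p9 : z * z ≤ w * w := mul_le_mul g4 g4 hz0 hw0
  have q1 : 0 ≤ x * w := mul_nonneg hx0 hw0
  have q2 : 0 ≤ y * w := mul_nonneg hy0 hw0
  have q3 : 0 ≤ z * w := mul_nonneg hz0 hw0
  have q4 : 0 ≤ x * z := mul_nonneg hx0 hz0
  have q5 : 0 ≤ y * z := mul_nonneg hy0 hz0
  have q6 : 0 ≤ x * x := mul_nonneg hx0 hx0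
  have q7 : 0 ≤ x * y := mul_nonneg hx0 hy0
  have q8 : 0 ≤ y * y := mul_nonneg hy0 hy0
  have q9 : 0 ≤ z * z := mul_nonneg hz0 hz0
  have q10 : 0 ≤ w * w := mul_nonneg hw0 hw0
  have r1 := mul_le_mul_of_nonneg_left p2 ha
  have r2 := mul_le_mul_of_nonneg_left p5 ha
  have r3 := mul_le_mul_of_nonneg_left p8 ha
  have r4 := mul_le_mul_of_nonneg_left p7 ha
  have r5 := mul_le_mul_of_nonneg_left p3 ha
  have r6 := mul_le_mul_of_nonneg_left p1 ha
  have t1 := mul_nonneg ha q2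
  have t2 := mul_nonneg ha q5
  have t3 := mul_nonneg ha q8
  have t4 := mul_nonneg ha q7
  have t5 := mul_nonneg ha q3
  have t6 := mul_nonneg ha q1
  have t7 := mul_nonneg ha q10
  have m00 : (G l * (X0 a).m * (G l).adjugate) 0 0 = (x + a * y) * w - (x + (a + 1) * y) * z := by
    rw [hG, Matrix.adjugate_fin_two_of]
    simp [X0, Qd.m, Matrix.mul_apply, Fin.sum_univ_two]
    ring
  have m01 : (G l * (X0 a).m * (G l).adjugate) 0 1 = -((x + a * y) * y) + (x + (a + 1) * y) * x := by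
    rw [hG, Matrix.adjugate_fin_two_of]
    simp [X0, Qd.m, Matrix.mul_apply, Fin.sum_univ_two]
    ring
  have m10 : (G l * (X0 a).m * (G l).adjugate) 1 0 = (z + a * w) * w - (z + (a + 1) * w) * z := by
    rw [hG, Matrix.adjugate_fin_two_of]
    simp [X0, Qd.m, Matrix.mul_apply, Fin.sum_univ_two]
    ring
  have m11 : (G l * (X0 a).m * (G l).adjugate) 1 1 = -((z + a * w) * y) + (z + (a + 1) * w) * x := by
    rw [hG, Matrix.adjugate_fin_two_of]
    simp [X0, Qd.m, Matrix.mul_apply, Fin.sum_univ_two]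
    ring
  have e0 : (2 * (a : ℤ) + 3) * w ^ 2 = 2 * (a * (w * w)) + 3 * (w * w) := by ring
  have f00 : (x + a * y) * w - (x + (a + 1) * y) * z =
      x * w + a * (y * w) - x * z - a * (y * z) - y * z := by ring
  have f01 : -((x + a * y) * y) + (x + (a + 1) * y) * x =
      -(x * y) - a * (y * y) + x * x + a * (x * y) + x * y := by ring
  have f10 : (z + a * w) * w - (z + (a + 1) * w) * z =
      z * w + a * (w * w) - z * z - a * (z * w) - z * w := by ring
  have f11 : -((z + a * w) * y) + (z + (a + 1) * w) * x =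
      -(y * z) - a * (y * w) + x * z + a * (x * w) + x * w := by ring
  clear_value x y z w
  rw [e0, abs_le]
  fin_cases i <;> fin_cases j
  · change -_ ≤ (G l * (X0 a).m * (G l).adjugate) 0 0 ∧ (G l * (X0 a).m * (G l).adjugate) 0 0 ≤ _
    rw [m00, f00]
    constructor <;> linarith
  · change -_ ≤ (G l * (X0 a).m * (G l).adjugate) 0 1 ∧ (G l * (X0 a).m * (G l).adjugate) 0 1 ≤ _
    rw [m01, f01]
    constructor <;> linarith
  · change -_ ≤ (G l * (X0 a).m * (G l).adjugate) 1 0 ∧ (G l * (X0 a).m * (G l).adjugate) 1 0 ≤ _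
    rw [m10, f10]
    constructor <;> linarith
  · change -_ ≤ (G l * (X0 a).m * (G l).adjugate) 1 1 ∧ (G l * (X0 a).m * (G l).adjugate) 1 1 ≤ _
    rw [m11, f11]
    constructor <;> linarith

/-! ### coprime pairs and lists -/

theorem G_append (l : List ℕ) (c : ℕ) : G (l ++ [c]) = G l * Ma c := by
  simp [G, List.map_append, List.prod_append]

theorem exists_list : ∀ (z w : ℕ), z ≤ w → Nat.Coprime z w →
    ∃ l : List ℕ, (∀ c ∈ l, 1 ≤ c) ∧ G l 1 0 = z ∧ G l 1 1 = w ∧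
      (0 < z → ∃ l', l = l' ++ [w / z]) := by
  intro z
  induction z using Nat.strong_induction_on with
  | _ z ih =>
    intro w hzw hc
    rcases Nat.eq_zero_or_pos z with h0 | hz
    · subst h0
      have hw : w = 1 := by simpa using hc
      subst hw
      exact ⟨[], by simp, by simp [G], by simp [G], fun h => (lt_irrefl _ h).elim⟩
    · have hc' : Nat.Coprime (w % z) z := by
        have : Nat.gcd (w % z) z = Nat.gcd z w := (Nat.gcd_rec z w).symm
        unfold Nat.Coprime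
        rw [this]
        exact hc
      obtain ⟨l, h1, h2, h3, -⟩ := ih (w % z) (Nat.mod_lt _ hz) z (Nat.mod_lt _ hz).le hc'
      refine ⟨l ++ [w / z], ?_, ?_, ?_, fun _ => ⟨l, rfl⟩⟩
      · intro c hcm
        rcases List.mem_append.1 hcm with h | h
        · exact h1 c h
        · simp only [List.mem_singleton] at h
          rw [h]
          exact Nat.div_pos hzw hz
      · rw [G_append]
        simp [Ma, Matrix.mul_apply, Fin.sum_univ_two, h3]
      · rw [G_append]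
        simp only [Ma, Matrix.mul_apply, Fin.sum_univ_two, h2, h3]
        simp only [Matrix.of_apply, Matrix.cons_val', Matrix.cons_val_zero, Matrix.cons_val_one,
          mul_one]
        have := Nat.mod_add_div w z
        have h5 : w % z + z * (w / z) = w := this
        exact_mod_cast h5

theorem exists_valid (z w : ℕ) (hz : 1 ≤ z) (hzw : 3 * z ≤ w) (hc : Nat.Coprime z w) :
    ∃ l : List ℕ, Valid l ∧ G l 1 0 = z ∧ G l 1 1 = w := by
  obtain ⟨l, h1, h2, h3, h4⟩ := exists_list z w (by omega) hc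
  obtain ⟨l', rfl⟩ := h4 (by omega)
  refine ⟨_, ⟨by simp, h1, fun h => ?_⟩, h2, h3⟩
  rw [List.getLast_append_singleton]
  exact (Nat.le_div_iff_mul_le (by omega)).2 hzw

theorem finite_bdd (N : ℕ) : Set.Finite {M : Matrix.SpecialLinearGroup (Fin 2) ℤ |
    ∀ i j, |(M : Mat) i j| ≤ (N : ℤ)} := by
  have h1 : Set.Finite {A : Mat | ∀ i j, |A i j| ≤ (N : ℤ)} := by
    have h2 : Set.Finite {A : Fin 2 → Fin 2 → ℤ | ∀ i, A i ∈ {B : Fin 2 → ℤ | ∀ j, B j ∈ Set.Icc (-(N : ℤ)) N}} :=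
      Set.Finite.pi' fun i => Set.Finite.pi' fun j => Set.finite_Icc _ _
    refine h2.subset ?_
    intro A hA i j
    exact abs_le.1 (hA i j)
  exact h1.preimage (Function.Injective.injOn Subtype.val_injective)

/-- pairs `(w, z)` with `1 ≤ z`, `3 z ≤ w ≤ W` -/
def PW (W : ℕ) : Finset (Σ _ : ℕ, ℕ) := (Finset.range (W + 1)).sigma fun w => Finset.Icc 1 (w / 3)

def CW (W : ℕ) : Finset (Σ _ : ℕ, ℕ) := (PW W).filter fun x => Nat.Coprime x.2 x.1

theorem mem_PW {W : ℕ} {x : Σ _ : ℕ, ℕ} : x ∈ PW W ↔ x.1 ≤ W ∧ 1 ≤ x.2 ∧ 3 * x.2 ≤ x.1 := by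
  simp only [PW, Finset.mem_sigma, Finset.mem_range, Finset.mem_Icc]
  omega

theorem mem_CW {W : ℕ} {x : Σ _ : ℕ, ℕ} :
    x ∈ CW W ↔ (x.1 ≤ W ∧ 1 ≤ x.2 ∧ 3 * x.2 ≤ x.1) ∧ Nat.Coprime x.2 x.1 := by
  rw [CW, Finset.mem_filter, mem_PW]

theorem card_CW_le_num (a : ℕ) (ha : 2 ≤ a) (W N : ℕ) (h : (2 * a + 3) * W ^ 2 ≤ N) :
    (CW W).card ≤ num N [a, 1] := by
  classical
  have hex : ∀ x : Σ _ : ℕ, ℕ, x ∈ CW W → ∃ l : List ℕ, Valid l ∧ G l 1 0 = x.2 ∧ G l 1 1 = x.1 := by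
    intro x hx
    obtain ⟨⟨_, h2, h3⟩, h4⟩ := mem_CW.1 hx
    exact exists_valid _ _ h2 h3 h4
  choose! f hf1 hf2 hf3 using hex
  let F : (Σ _ : ℕ, ℕ) → Matrix.SpecialLinearGroup (Fin 2) ℤ := fun x => ⟨(T a (f x)).m, T_det a _⟩
  have hinj : Set.InjOn F (CW W : Set (Σ _ : ℕ, ℕ)) := by
    intro x hx y hy hxy
    have hx' : x ∈ CW W := hx
    have hy' : y ∈ CW W := hy
    have e1 : (T a (f x)).m = (T a (f y)).m := congrArg Subtype.val hxy
    have e2 : T a (f x) = T a (f y) := by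
      have q0 := congrFun (congrFun e1 0) 0
      have q1 := congrFun (congrFun e1 0) 1
      have q2 := congrFun (congrFun e1 1) 0
      have q3 := congrFun (congrFun e1 1) 1
      simp only [Qd.m, Matrix.of_apply, Matrix.cons_val', Matrix.cons_val_zero,
        Matrix.cons_val_one] at q0 q1 q2 q3
      generalize T a (f x) = X at *
      generalize T a (f y) = Y at *
      cases X; cases Y
      simp_all
    have e3 := T_inj a ha _ _ (hf1 x hx') (hf1 y hy') e2
    have e4 : (x.2 : ℤ) = y.2 := by rw [← hf2 x hx', ← hf2 y hy', e3]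
    have e5 : (x.1 : ℤ) = y.1 := by rw [← hf3 x hx', ← hf3 y hy', e3]
    obtain ⟨x1, x2⟩ := x
    obtain ⟨y1, y2⟩ := y
    simp only at e4 e5
    have e4' : x2 = y2 := by exact_mod_cast e4
    have e5' : x1 = y1 := by exact_mod_cast e5
    subst e4' e5'
    rfl
  have hmaps : F '' (CW W : Set (Σ _ : ℕ, ℕ)) ⊆ {M : Matrix.SpecialLinearGroup (Fin 2) ℤ |
      (∀ i j, |(M : Mat) i j| ≤ (N : ℤ)) ∧ IsLLS [a, 1] (M : Mat) ∧
        ∃ M' : Mat, Returns (M : Mat) M' ∧ ColumnCond [a, 1] M'} := by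
    rintro _ ⟨x, hx, rfl⟩
    have hx' : x ∈ CW W := hx
    have hv := hf1 x hx'
    refine ⟨?_, T_LLS a _, (X0 a).m, returns_T a ha _ hv, columnCond a ha⟩
    intro i j
    have h1 := T_bound a (f x) hv.1 hv.2.1 i j
    rw [hf3 x hx'] at h1
    have h2 : x.1 ≤ W := (mem_CW.1 hx').1.1
    have h3 : (2 * a + 3) * x.1 ^ 2 ≤ N :=
      le_trans (Nat.mul_le_mul_left _ (Nat.pow_le_pow_left h2 2)) h
    have h4 : ((2 * a + 3) * (x.1 : ℤ) ^ 2) ≤ N := by exact_mod_cast h3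
    exact h1.trans h4
  have hfin : Set.Finite {M : Matrix.SpecialLinearGroup (Fin 2) ℤ |
      (∀ i j, |(M : Mat) i j| ≤ (N : ℤ)) ∧ IsLLS [a, 1] (M : Mat) ∧
        ∃ M' : Mat, Returns (M : Mat) M' ∧ ColumnCond [a, 1] M'} :=
    (finite_bdd N).subset fun M hM => hM.1
  calc (CW W).card = (CW W : Set (Σ _ : ℕ, ℕ)).ncard := (Set.ncard_coe_finset _).symm
    _ = (F '' (CW W : Set (Σ _ : ℕ, ℕ))).ncard := (hinj.ncard_image).symm
    _ ≤ _ := Set.ncard_le_ncard hmaps hfin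

/-! ### counting coprime pairs -/

theorem card_PW (W : ℕ) : (PW W).card = ∑ w ∈ Finset.range (W + 1), w / 3 := by
  rw [PW, Finset.card_sigma]
  refine Finset.sum_congr rfl fun w _ => ?_
  simp

theorem six_card_PW (W : ℕ) : 6 * (PW W).card ≤ W ^ 2 := by
  induction W using Nat.strong_induction_on with
  | _ W ih =>
    by_cases h : W < 3
    · interval_cases W <;> decide
    · obtain ⟨V, rfl⟩ : ∃ V, W = V + 3 := ⟨W - 3, by omega⟩
      have := ih V (by omega)
      rw [card_PW] at this ⊢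
      rw [Finset.sum_range_succ, Finset.sum_range_succ, Finset.sum_range_succ]
      have h1 : (V + 1) / 3 + (V + 1 + 1) / 3 + (V + 1 + 1 + 1) / 3 = V + 1 := by omega
      have h2 : (V + 3) ^ 2 = V ^ 2 + 6 * V + 9 := by ring
      have h3 : V + 3 = V + 1 + 1 + 1 := rfl
      rw [h2]
      have h4 : (V + 3) / 3 = (V + 1 + 1 + 1) / 3 := rfl
      have h5 : (V + 1 + 1) / 3 = (V + 2) / 3 := rfl
      omega

theorem card_PW_three (V : ℕ) : 2 * (PW (3 * V)).card + V = 3 * V ^ 2 := by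
  induction V with
  | zero => decide
  | succ V ih =>
    rw [card_PW] at ih ⊢
    have e : 3 * (V + 1) + 1 = (3 * V + 1) + 1 + 1 + 1 := by ring
    rw [e, Finset.sum_range_succ, Finset.sum_range_succ, Finset.sum_range_succ]
    have h1 : (3 * V + 1) / 3 = V := by omega
    have h2 : (3 * V + 1 + 1) / 3 = V := by omega
    have h3 : (3 * V + 1 + 1 + 1) / 3 = V + 1 := by omega
    rw [h1, h2, h3]
    have : (V + 1) ^ 2 = V ^ 2 + 2 * V + 1 := by ring
    rw [this]
    omega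

theorem card_PW_le_sum (W : ℕ) : (PW W).card ≤ ∑ d ∈ Finset.Icc 1 W, (CW (W / d)).card := by
  classical
  have hsub : PW W ⊆ (Finset.Icc 1 W).biUnion fun d =>
      (CW (W / d)).image fun x : (Σ _ : ℕ, ℕ) => (⟨d * x.1, d * x.2⟩ : Σ _ : ℕ, ℕ) := by
    intro x hx
    obtain ⟨h1, h2, h3⟩ := mem_PW.1 hx
    set g := Nat.gcd x.2 x.1 with hg
    have hgpos : 0 < g := Nat.gcd_pos_of_pos_left _ (by omega)
    have hg1 : g ∣ x.1 := Nat.gcd_dvd_right _ _
    have hg2 : g ∣ x.2 := Nat.gcd_dvd_left _ _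
    have hgle : g ≤ W := (Nat.le_of_dvd (by omega) hg1).trans h1
    rw [Finset.mem_biUnion]
    refine ⟨g, Finset.mem_Icc.2 ⟨hgpos, hgle⟩, ?_⟩
    rw [Finset.mem_image]
    refine ⟨⟨x.1 / g, x.2 / g⟩, mem_CW.2 ⟨⟨Nat.div_le_div_right h1, ?_, ?_⟩, ?_⟩, ?_⟩
    · exact Nat.div_pos (Nat.le_of_dvd (by omega) hg2) hgpos
    · obtain ⟨u, hu⟩ := hg1
      obtain ⟨v, hv⟩ := hg2
      simp only
      rw [hu, hv, Nat.mul_div_cancel_left _ hgpos, Nat.mul_div_cancel_left _ hgpos]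
      rw [hu, hv] at h3
      have : g * (3 * v) ≤ g * u := by linarith
      exact Nat.le_of_mul_le_mul_left this hgpos
    · exact Nat.coprime_div_gcd_div_gcd hgpos
    · obtain ⟨x1, x2⟩ := x
      simp only at *
      rw [Nat.mul_div_cancel' hg1, Nat.mul_div_cancel' hg2]
  refine (Finset.card_le_card hsub).trans (Finset.card_biUnion_le.trans ?_)
  exact Finset.sum_le_sum fun d _ => Finset.card_image_le

theorem sum_inv_sq (n : ℕ) (hn : 2 ≤ n) :
    ∑ d ∈ Finset.Icc 2 n, (1 : ℝ) / (d : ℝ) ^ 2 ≤ 3 / 4 - 1 / n := by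
  induction n, hn using Nat.le_induction with
  | base => norm_num
  | succ n hn ih =>
    rw [Finset.sum_Icc_succ_top (by omega)]
    have hn' : (0 : ℝ) < n := by positivity
    have h1 : (1 : ℝ) / ((n + 1 : ℕ) : ℝ) ^ 2 ≤ 1 / n - 1 / ((n + 1 : ℕ) : ℝ) := by
      push_cast
      rw [div_sub_div _ _ hn'.ne' (by positivity)]
      rw [div_le_div_iff₀ (by positivity) (by positivity)]
      nlinarith
    linarith

theorem card_CW_ge (V : ℕ) (hV : 12 ≤ V) : (V : ℝ) ^ 2 / 3 ≤ ((CW (3 * V)).card : ℝ) := by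
  have h1 := card_PW_le_sum (3 * V)
  have h0 : (CW (3 * V / 1)).card + ∑ d ∈ Finset.Icc 2 (3 * V), (CW (3 * V / d)).card =
      ∑ d ∈ Finset.Icc 1 (3 * V), (CW (3 * V / d)).card := by
    rw [← Finset.sum_Ioc_add_eq_sum_Icc (by omega : 1 ≤ 3 * V), add_comm]
    congr 1
  rw [← h0, Nat.div_one] at h1
  have h2 : ∀ d ∈ Finset.Icc 2 (3 * V), ((CW (3 * V / d)).card : ℝ) ≤
      (3 / 2 * (V : ℝ) ^ 2) * (1 / (d : ℝ) ^ 2) := by
    intro d hd
    have hd2 := (Finset.mem_Icc.1 hd).1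
    have hdpos : (0 : ℝ) < d := by
      have : 0 < d := by omega
      exact_mod_cast this
    have e1 : (CW (3 * V / d)).card ≤ (PW (3 * V / d)).card := Finset.card_filter_le _ _
    have e2 := six_card_PW (3 * V / d)
    have e3 : (6 : ℝ) * (CW (3 * V / d)).card ≤ ((3 * V / d : ℕ) : ℝ) ^ 2 := by
      have : 6 * (CW (3 * V / d)).card ≤ (3 * V / d) ^ 2 := by omega
      exact_mod_cast this
    have e4 : ((3 * V / d : ℕ) : ℝ) ≤ 3 * V / d := by
      have := @Nat.cast_div_le ℝ _ _ _ (3 * V) d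
      push_cast at this
      exact this
    have e5 : ((3 * V / d : ℕ) : ℝ) ^ 2 ≤ (3 * V / d) ^ 2 := by
      apply pow_le_pow_left₀ (by positivity) e4
    have e6 : (3 * (V : ℝ) / d) ^ 2 = 9 * (V : ℝ) ^ 2 * (1 / (d : ℝ) ^ 2) := by
      field_simp
      ring
    rw [e6] at e5
    linarith
  have h3 : ((∑ d ∈ Finset.Icc 2 (3 * V), (CW (3 * V / d)).card : ℕ) : ℝ) ≤
      (3 / 2 * (V : ℝ) ^ 2) * (3 / 4) := by
    push_cast
    refine (Finset.sum_le_sum h2).trans ?_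
    rw [← Finset.mul_sum]
    refine mul_le_mul_of_nonneg_left ?_ (by positivity)
    have := sum_inv_sq (3 * V) (by omega)
    have h4 : (0 : ℝ) ≤ 1 / ((3 * V : ℕ) : ℝ) := by positivity
    linarith
  have h4 : (2 : ℝ) * (PW (3 * V)).card + V = 3 * (V : ℝ) ^ 2 := by
    exact_mod_cast card_PW_three V
  have h5 : ((PW (3 * V)).card : ℝ) ≤ (CW (3 * V)).card +
      ((∑ d ∈ Finset.Icc 2 (3 * V), (CW (3 * V / d)).card : ℕ) : ℝ) := by
    exact_mod_cast h1
  have hV' : (12 : ℝ) ≤ V := by exact_mod_cast hV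
  nlinarith

end Pool.Agent.R935.GKR
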