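import Pool.Agent.R935.GKR.Defs

/-! # Upper bound for `#_N((1,a))` -/

set_option autoImplicit false

namespace Pool.Agent.R935.GKR

/-- `(x y; z w)` represents the first column `(p, q)` of `ε (x y; z w) B (x y; z w)⁻¹`,
`B = (0 -1; 1 T)`. -/
def Rep (T ε δ p q x y z w : ℤ) : Prop :=
  x * w - y * z = δ ∧ p = ε * δ * (y * w + x * z - T * y * z) ∧
    q = ε * δ * (z ^ 2 - T * z * w + w ^ 2)

theorem Rep.next {T ε δ p q x y z w : ℤ} (h : Rep T ε δ p q x y z w) :
    Rep T ε δ p q y (T * y - x) w (T * w - z) := by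
  obtain ⟨h1, h2, h3⟩ := h
  refine ⟨by linear_combination h1, ?_, ?_⟩
  · rw [h2]; ring
  · rw [h3]; ring

theorem Rep.prev {T ε δ p q x y z w : ℤ} (h : Rep T ε δ p q x y z w) :
    Rep T ε δ p q (T * x - y) x (T * z - w) z := by
  obtain ⟨h1, h2, h3⟩ := h
  refine ⟨by linear_combination h1, ?_, ?_⟩
  · rw [h2]; ring
  · rw [h3]; ring

theorem Rep.neg {T ε δ p q x y z w : ℤ} (h : Rep T ε δ p q x y z w) :
    Rep T ε δ p q (-x) (-y) (-z) (-w) := by
  obtain ⟨h1, h2, h3⟩ := h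
  refine ⟨by linear_combination h1, ?_, ?_⟩
  · rw [h2]; ring
  · rw [h3]; ring

theorem exists_rep (a : ℕ) (M : Mat) (h : IsLLS [1, a] M) :
    ∃ ε δ x y z w : ℤ, (ε = 1 ∨ ε = -1) ∧ (δ = 1 ∨ δ = -1) ∧
      Rep (a + 2) ε δ (M 0 0) (M 1 0) x y z w ∧ M 0 0 + M 1 1 = ε * (a + 2) := by
  obtain ⟨g, hg⟩ := h
  have hMP : MP [1, a] = !![1, (a : ℤ); 1, a + 1] := by
    simp only [MP, List.map_cons, List.map_nil, List.prod_cons, List.prod_nil, mul_one]
    ext i j
    fin_cases i <;> fin_cases j <;>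
      simp [Ma, Matrix.mul_apply, Fin.sum_univ_two, add_comm]
  have hε : ∃ ε : ℤ, (ε = 1 ∨ ε = -1) ∧ (g : Mat) * M *
      ((g⁻¹ : Matrix.GeneralLinearGroup (Fin 2) ℤ) : Mat) = ε • !![1, (a : ℤ); 1, a + 1] := by
    rcases hg with h | h
    · exact ⟨1, Or.inl rfl, by rw [h, hMP, one_smul]⟩
    · exact ⟨-1, Or.inr rfl, by rw [h, hMP, neg_smul, one_smul]⟩
  obtain ⟨ε, hε, hg⟩ := hε
  have hinv : ((g⁻¹ : Matrix.GeneralLinearGroup (Fin 2) ℤ) : Mat) * (g : Mat) = 1 := by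
    rw [← Units.val_mul, inv_mul_cancel, Units.val_one]
  have hinv' : (g : Mat) * ((g⁻¹ : Matrix.GeneralLinearGroup (Fin 2) ℤ) : Mat) = 1 := by
    rw [← Units.val_mul, mul_inv_cancel, Units.val_one]
  have hM : M = ε • (((g⁻¹ : Matrix.GeneralLinearGroup (Fin 2) ℤ) : Mat) *
      !![1, (a : ℤ); 1, a + 1] * (g : Mat)) := by
    have : ((g⁻¹ : Matrix.GeneralLinearGroup (Fin 2) ℤ) : Mat) * ((g : Mat) * M *
      ((g⁻¹ : Matrix.GeneralLinearGroup (Fin 2) ℤ) : Mat)) * (g : Mat) = M := by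
      calc _ = (((g⁻¹ : Matrix.GeneralLinearGroup (Fin 2) ℤ) : Mat) * (g : Mat)) * M *
        (((g⁻¹ : Matrix.GeneralLinearGroup (Fin 2) ℤ) : Mat) * (g : Mat)) := by
            simp only [Matrix.mul_assoc]
        _ = M := by rw [hinv, Matrix.one_mul, Matrix.mul_one]
    rw [← this, hg, Matrix.mul_smul, Matrix.smul_mul]
  have hdd : (g : Mat).det * ((g⁻¹ : Matrix.GeneralLinearGroup (Fin 2) ℤ) : Mat).det = 1 := by
    rw [← Matrix.det_mul, hinv', Matrix.det_one]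
  have hδ : (g : Mat).det = 1 ∨ (g : Mat).det = -1 :=
    Int.isUnit_iff.1 (IsUnit.of_mul_eq_one _ hdd)
  set δ := (g : Mat).det with hδdef
  have hδ2 : δ * δ = 1 := by rcases hδ with h | h <;> rw [h] <;> norm_num
  have hadj : ((g⁻¹ : Matrix.GeneralLinearGroup (Fin 2) ℤ) : Mat) = δ • (g : Mat).adjugate := by
    have h2 : (g : Mat).adjugate = δ • ((g⁻¹ : Matrix.GeneralLinearGroup (Fin 2) ℤ) : Mat) := by
      calc (g : Mat).adjugate = (g : Mat).adjugate * ((g : Mat) *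
            ((g⁻¹ : Matrix.GeneralLinearGroup (Fin 2) ℤ) : Mat)) := by rw [hinv', Matrix.mul_one]
        _ = ((g : Mat).adjugate * (g : Mat)) *
            ((g⁻¹ : Matrix.GeneralLinearGroup (Fin 2) ℤ) : Mat) := by rw [Matrix.mul_assoc]
        _ = _ := by rw [Matrix.adjugate_mul, Matrix.smul_mul, Matrix.one_mul]
    rw [h2, smul_smul, hδ2, one_smul]
  obtain ⟨A, hA⟩ : ∃ A : Mat, A = (g : Mat) := ⟨_, rfl⟩
  obtain ⟨b00, b01, b10, b11, hb⟩ : ∃ b00 b01 b10 b11 : ℤ, A = !![b00, b01; b10, b11] :=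
    ⟨A 0 0, A 0 1, A 1 0, A 1 1, by ext i j; fin_cases i <;> fin_cases j <;> rfl⟩
  have hdet : b00 * b11 - b01 * b10 = δ := by
    rw [hδdef, ← hA, hb, Matrix.det_fin_two_of]
  rw [hadj, ← hA, hb, Matrix.adjugate_fin_two_of] at hM
  have m00 : M 0 0 = ε * δ * (b11 * (b00 + a * b10) - b01 * (b00 + (a + 1) * b10)) := by
    rw [hM]
    simp [Matrix.mul_apply, Fin.sum_univ_two]
    ring
  have m10 : M 1 0 = ε * δ * (-(b10 * (b00 + a * b10)) + b00 * (b00 + (a + 1) * b10)) := by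
    rw [hM]
    simp [Matrix.mul_apply, Fin.sum_univ_two]
    ring
  have m11 : M 1 1 = ε * δ * (-(b10 * (b01 + a * b11)) + b00 * (b01 + (a + 1) * b11)) := by
    rw [hM]
    simp [Matrix.mul_apply, Fin.sum_univ_two]
    ring
  refine ⟨ε, δ, b11, b11 - b01, -b10, b00 - b10, hε, hδ, ⟨?_, ?_, ?_⟩, ?_⟩
  · rw [← hdet]; ring
  · rw [m00]; ring
  · rw [m10]; ring
  · have : M 0 0 + M 1 1 = ε * δ * ((b00 * b11 - b01 * b10) * (a + 2)) := by
      rw [m00, m11]; ring
    rw [this, hdet]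
    linear_combination ε * (a + 2) * hδ2

/-! ### reduction -/

theorem exists_min {T ε δ p q x y z w : ℤ} (h : Rep T ε δ p q x y z w) (μ : ℤ → ℤ → ℕ) :
    ∃ x y z w : ℤ, Rep T ε δ p q x y z w ∧
      (∀ x' y' z' w' : ℤ, Rep T ε δ p q x' y' z' w' → μ z w ≤ μ z' w') := by
  classical
  have hex : ∃ n : ℕ, ∃ x y z w : ℤ, Rep T ε δ p q x y z w ∧ μ z w = n := ⟨_, x, y, z, w, h, rfl⟩
  obtain ⟨x, y, z, w, h1, h2⟩ := Nat.find_spec hex
  refine ⟨x, y, z, w, h1, fun x' y' z' w' h' => ?_⟩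
  rw [h2]
  exact Nat.find_min' hex ⟨x', y', z', w', h', rfl⟩

theorem exists_pos {T ε δ p q x y z w : ℤ} (hT : 2 < T) (h : Rep T ε δ p q x y z w)
    (hf : 0 < z ^ 2 - T * z * w + w ^ 2) (hεδ : ε * δ ≠ 0) :
    ∃ x y z w : ℤ, Rep T ε δ p q x y z w ∧ 0 ≤ z ∧ w ≤ 0 := by
  obtain ⟨x', y', z', w', h', hmin⟩ := exists_min h (fun z w => z.natAbs + w.natAbs)
  have hf' : 0 < z' ^ 2 - T * z' * w' + w' ^ 2 := by
    have e : ε * δ * (z ^ 2 - T * z * w + w ^ 2) = ε * δ * (z' ^ 2 - T * z' * w' + w' ^ 2) := by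
      rw [← h.2.2, ← h'.2.2]
    have := mul_left_cancel₀ hεδ e
    rwa [← this]
  have hzw : z' * w' ≤ 0 := by
    by_contra hcon
    push Not at hcon
    have h1 : z'.natAbs + w'.natAbs ≤ w'.natAbs + (T * w' - z').natAbs := hmin _ _ _ _ h'.next
    have h2 : z'.natAbs + w'.natAbs ≤ (T * z' - w').natAbs + z'.natAbs := hmin _ _ _ _ h'.prev
    have h1' : |z'| ≤ |T * w' - z'| := by
      have : z'.natAbs ≤ (T * w' - z').natAbs := by omega
      have h3 : ((z'.natAbs : ℕ) : ℤ) ≤ ((T * w' - z').natAbs : ℕ) := by exact_mod_cast this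
      simpa using h3
    have h2' : |w'| ≤ |T * z' - w'| := by
      have : w'.natAbs ≤ (T * z' - w').natAbs := by omega
      have h3 : ((w'.natAbs : ℕ) : ℤ) ≤ ((T * z' - w').natAbs : ℕ) := by exact_mod_cast this
      simpa using h3
    have h3 := sq_le_sq.2 h1'
    have h4 := sq_le_sq.2 h2'
    -- T w (T w - 2 z) ≥ 0, T z (T z - 2 w) ≥ 0
    have h5 : 0 ≤ T * (w' * (T * w' - 2 * z')) := by nlinarith
    have h6 : 0 ≤ T * (z' * (T * z' - 2 * w')) := by nlinarith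
    have h7 : 0 ≤ w' * (T * w' - 2 * z') := nonneg_of_mul_nonneg_right h5 (by linarith)
    have h8 : 0 ≤ z' * (T * z' - 2 * w') := nonneg_of_mul_nonneg_right h6 (by linarith)
    rcases lt_or_gt_of_ne (show z' ≠ 0 by rintro rfl; simp at hcon) with hz | hz
    · have hw : w' < 0 := by
        by_contra hw
        push Not at hw
        nlinarith
      have h9 : T * w' - 2 * z' ≤ 0 := by
        by_contra hc
        push Not at hc
        nlinarith
      have h10 : T * z' - 2 * w' ≤ 0 := by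
        by_contra hc
        push Not at hc
        nlinarith
      rcases le_total z' w' with hl | hl
      · nlinarith [mul_nonneg (neg_nonneg.2 hz.le) (neg_nonneg.2 h9), mul_nonneg (neg_nonneg.2 hw.le) (neg_nonneg.2 h10), mul_nonneg (sub_nonneg.2 hl) (neg_nonneg.2 hw.le), mul_nonneg (sub_nonneg.2 hl) (neg_nonneg.2 hz.le)]
      · nlinarith [mul_nonneg (neg_nonneg.2 hz.le) (neg_nonneg.2 h9), mul_nonneg (neg_nonneg.2 hw.le) (neg_nonneg.2 h10), mul_nonneg (sub_nonneg.2 hl) (neg_nonneg.2 hw.le), mul_nonneg (sub_nonneg.2 hl) (neg_nonneg.2 hz.le)]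
    · have hw : 0 < w' := by
        by_contra hw
        push Not at hw
        nlinarith
      have h9 : 0 ≤ T * w' - 2 * z' := by
        by_contra hc
        push Not at hc
        nlinarith
      have h10 : 0 ≤ T * z' - 2 * w' := by
        by_contra hc
        push Not at hc
        nlinarith
      rcases le_total z' w' with hl | hl
      · nlinarith [mul_nonneg hz.le h9, mul_nonneg hw.le h10, mul_nonneg (sub_nonneg.2 hl) hw.le, mul_nonneg (sub_nonneg.2 hl) hz.le]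
      · nlinarith [mul_nonneg hz.le h9, mul_nonneg hw.le h10, mul_nonneg (sub_nonneg.2 hl) hw.le, mul_nonneg (sub_nonneg.2 hl) hz.le]
  rcases le_total 0 z' with hz | hz
  · rcases le_total w' 0 with hw | hw
    · exact ⟨x', y', z', w', h', hz, hw⟩
    · have h0 : z' * w' = 0 := le_antisymm hzw (mul_nonneg hz hw)
      rcases mul_eq_zero.1 h0 with h0 | h0
      · exact ⟨-x', -y', -z', -w', h'.neg, by omega, by omega⟩
      · exact ⟨x', y', z', w', h', hz, by omega⟩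
  · rcases le_total w' 0 with hw | hw
    · have h0 : z' * w' = 0 := le_antisymm hzw (mul_nonneg_of_nonpos_of_nonpos hz hw)
      rcases mul_eq_zero.1 h0 with h0 | h0
      · exact ⟨x', y', z', w', h', by omega, hw⟩
      · exact ⟨-x', -y', -z', -w', h'.neg, by omega, by omega⟩
    · exact ⟨-x', -y', -z', -w', h'.neg, by omega, by omega⟩

theorem exists_neg {T ε δ p q x y z w : ℤ} (hT : 2 < T) (h : Rep T ε δ p q x y z w)
    (hf : z ^ 2 - T * z * w + w ^ 2 < 0) (hεδ : ε * δ ≠ 0) :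
    ∃ x y z w : ℤ, Rep T ε δ p q x y z w ∧ 0 < z ∧ z ≤ w ∧ w ≤ (T - 1) * z := by
  obtain ⟨x', y', z', w', h', hmin⟩ := exists_min h (fun z _ => z.natAbs)
  have hf' : z' ^ 2 - T * z' * w' + w' ^ 2 < 0 := by
    have e : ε * δ * (z ^ 2 - T * z * w + w ^ 2) = ε * δ * (z' ^ 2 - T * z' * w' + w' ^ 2) := by
      rw [← h.2.2, ← h'.2.2]
    have := mul_left_cancel₀ hεδ e
    rwa [← this]
  have h1 : z'.natAbs ≤ w'.natAbs := hmin _ _ _ _ h'.next
  have h2 : z'.natAbs ≤ (T * z' - w').natAbs := hmin _ _ _ _ h'.prev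
  have h1' : |z'| ≤ |w'| := by
    have h3 : ((z'.natAbs : ℕ) : ℤ) ≤ (w'.natAbs : ℕ) := by exact_mod_cast h1
    simpa using h3
  have h2' : |z'| ≤ |T * z' - w'| := by
    have h3 : ((z'.natAbs : ℕ) : ℤ) ≤ ((T * z' - w').natAbs : ℕ) := by exact_mod_cast h2
    simpa using h3
  have hzw : 0 < z' * w' := by
    have : 0 < T * (z' * w') := by nlinarith [sq_nonneg z', sq_nonneg w']
    exact (pos_iff_pos_of_mul_pos this).1 (by linarith)
  -- a general statement for positive z, w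
  have key : ∀ u v : ℤ, 0 < u → 0 < v → u ^ 2 - T * u * v + v ^ 2 < 0 → |u| ≤ |v| →
      |u| ≤ |T * u - v| → u ≤ v ∧ v ≤ (T - 1) * u := by
    intro u v hu hv hf h1 h2
    rw [abs_of_pos hu] at h1 h2
    rw [abs_of_pos hv] at h1
    refine ⟨h1, ?_⟩
    rcases le_total 0 (T * u - v) with h | h
    · rw [abs_of_nonneg h] at h2
      linarith
    · exfalso
      nlinarith [sq_nonneg u, mul_nonneg hv.le (neg_nonneg.2 h)]
  rcases lt_or_gt_of_ne (show z' ≠ 0 by rintro rfl; simp at hzw) with hz | hz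
  · have hw : w' < 0 := by
      by_contra hw
      push Not at hw
      nlinarith
    have := key (-z') (-w') (by linarith) (by linarith) (by linarith) (by simpa using h1')
      (by
        have e : T * -z' - -w' = -(T * z' - w') := by ring
        rw [e, abs_neg, abs_neg]
        exact h2')
    exact ⟨_, _, _, _, h'.neg, by linarith, this.1, this.2⟩
  · have hw : 0 < w' := by
      by_contra hw
      push Not at hw
      nlinarith
    have := key z' w' hz hw hf' h1' h2'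
    exact ⟨_, _, _, _, h', hz, this.1, this.2⟩

/-! ### codes -/

/-- `M` has the code `(ε, δ, z, w, k)`. -/
def Code (T : ℤ) (M : Mat) (ε δ z w k : ℤ) : Prop :=
  (∃ x y : ℤ, Rep T ε δ (M 0 0) (M 1 0) x y z w) ∧ M 0 0 + M 1 1 = ε * T ∧
    k = M 0 0 / |M 1 0|

theorem code_inj {T : ℤ} {M M' : Mat} (hM : M.det = 1) (hM' : M'.det = 1)
    {ε δ z w k : ℤ} (hδ : δ = 1 ∨ δ = -1) (hq : M 1 0 ≠ 0)
    (h : Code T M ε δ z w k) (h' : Code T M' ε δ z w k) : M = M' := by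
  obtain ⟨⟨x, y, h1, h2, h3⟩, h4, h5⟩ := h
  obtain ⟨⟨x', y', h1', h2', h3'⟩, h4', h5'⟩ := h'
  have hδ2 : δ * δ = 1 := by rcases hδ with h | h <;> rw [h] <;> norm_num
  have hqq : M 1 0 = M' 1 0 := by rw [h3, h3']
  have hp : M 0 0 - M' 0 0 = (δ * (y * x' - x * y')) * M 1 0 := by
    have ex : x - x' = (δ * (y * x' - x * y')) * z := by
      have : (δ * (y * x' - x * y')) * z = δ * (x' * (y * z) - x * (y' * z)) := by ring
      rw [this]
      have a1 : y * z = x * w - δ := by linear_combination -h1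
      have a2 : y' * z = x' * w - δ := by linear_combination -h1'
      rw [a1, a2]
      linear_combination (x' - x) * hδ2
    have ey : y - y' = (δ * (y * x' - x * y')) * w := by
      have : (δ * (y * x' - x * y')) * w = δ * (y * (x' * w) - y' * (x * w)) := by ring
      rw [this]
      have a1 : x * w = δ + y * z := by linear_combination h1
      have a2 : x' * w = δ + y' * z := by linear_combination h1'
      rw [a1, a2]
      linear_combination (y' - y) * hδ2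
    rw [h2, h2', h3]
    generalize δ * (y * x' - x * y') = j at *
    have ex' : x = x' + j * z := by linear_combination ex
    have ey' : y = y' + j * w := by linear_combination ey
    rw [ex', ey']
    ring
  have hab : 0 < |M 1 0| := abs_pos.2 hq
  have hp0 : M 0 0 = M' 0 0 := by
    generalize δ * (y * x' - x * y') = j at *
    obtain ⟨j', hj'⟩ : ∃ j', j * M 1 0 = j' * |M 1 0| := by
      rcases abs_choice (M 1 0) with h | h
      · exact ⟨j, by rw [h]⟩
      · exact ⟨-j, by rw [h]; ring⟩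
    have e1 : M 0 0 = M' 0 0 + j' * |M 1 0| := by linarith
    have e2 : M 0 0 / |M 1 0| = M' 0 0 / |M 1 0| + j' := by
      rw [e1, Int.add_mul_ediv_right _ _ hab.ne']
    rw [← h5, hqq, ← h5'] at e2
    have : j' = 0 := by linarith
    rw [e1, this]
    ring
  have hs : M 1 1 = M' 1 1 := by linarith
  rw [Matrix.det_fin_two] at hM hM'
  have hr : M 0 1 = M' 0 1 := by
    have : M 0 1 * M 1 0 = M' 0 1 * M 1 0 := by
      rw [hp0, hs] at hM
      rw [← hqq] at hM'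
      linarith
    exact mul_right_cancel₀ hq this
  ext i j
  fin_cases i <;> fin_cases j
  · exact hp0
  · exact hr
  · exact hqq
  · exact hs

/-- the bound for `p`: if `m² c ≤ |q|`, `N ≤ c S²`, `T ≤ S` and `|q|, |r| ≤ N` then `|p| m ≤ 2 S |q|`. -/
theorem p_bound {T S N c m p r q s : ℤ} (hdet : p * s - r * q = 1) (htr : p + s = T ∨ p + s = -T)
    (hT : 2 < T) (hTS : T ≤ S) (hc : 1 ≤ c) (hm : 1 ≤ m) (hq : m ^ 2 * c ≤ |q|)
    (hN : N ≤ c * S ^ 2) (hr : |r| ≤ N) : |p| * m ≤ 2 * S * |q| := by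
  have hqpos : 1 ≤ |q| := by nlinarith
  rcases le_total |p| (2 * T) with h | h
  · have h1 : m ≤ |q| := by nlinarith
    calc |p| * m ≤ (2 * T) * |q| := mul_le_mul h h1 (by linarith) (by linarith)
      _ ≤ 2 * S * |q| := mul_le_mul_of_nonneg_right (by linarith) (by linarith)
  · have h1 : p ^ 2 ≤ T * |p| + N * |q| := by
      have e1 : |r * q| ≤ N * |q| := by
        rw [abs_mul]
        exact mul_le_mul_of_nonneg_right hr (by linarith)
      have e2 : -(N * |q|) ≤ r * q := by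
        have := (abs_le.1 e1).1
        exact this
      have e3 : p ≤ |p| := le_abs_self p
      have e4 : -|p| ≤ p := neg_abs_le p
      rcases htr with h' | h'
      · have : s = T - p := by linarith
        rw [this] at hdet
        nlinarith
      · have : s = -T - p := by linarith
        rw [this] at hdet
        nlinarith
    have h2 : p ^ 2 ≤ 2 * N * |q| := by
      have e : p ^ 2 = |p| * |p| := by rw [abs_mul_abs_self, sq]
      nlinarith [abs_nonneg p]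
    have h3 : N * |q| ≤ (c * S ^ 2) * |q| := mul_le_mul_of_nonneg_right hN (by linarith)
    have h4 : p ^ 2 * m ^ 2 ≤ (2 * S * |q|) ^ 2 := by
      have e1 : p ^ 2 * m ^ 2 ≤ (2 * (c * S ^ 2) * |q|) * m ^ 2 :=
        mul_le_mul_of_nonneg_right (by linarith) (sq_nonneg _)
      have e2 : (2 * (c * S ^ 2) * |q|) * m ^ 2 = (2 * S ^ 2 * |q|) * (m ^ 2 * c) := by ring
      have e3 : (2 * S ^ 2 * |q|) * (m ^ 2 * c) ≤ (2 * S ^ 2 * |q|) * |q| :=
        mul_le_mul_of_nonneg_left hq (by positivity)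
      nlinarith [sq_nonneg (S * |q|)]
    have h5 : (|p| * m) ^ 2 ≤ (2 * S * |q|) ^ 2 := by
      rw [mul_pow, sq_abs]
      exact h4
    have hS : 0 ≤ S := by linarith
    exact le_of_sq_le_sq h5 (by positivity)

/-- the range of `k = ⌊p / |q|⌋` -/
theorem k_range {p q : ℤ} {m S : ℕ} (hm : 1 ≤ m) (hq : 1 ≤ |q|) (h : |p| * m ≤ 2 * S * |q|) :
    p / |q| ∈ Finset.Icc (-((2 * S / m : ℕ) : ℤ) - 1) ((2 * S / m : ℕ) : ℤ) := by
  have hm' : (1 : ℤ) ≤ m := by exact_mod_cast hm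
  have hp1 : p ≤ |p| := le_abs_self p
  have hp2 : -|p| ≤ p := neg_abs_le p
  rw [Finset.mem_Icc]
  push_cast
  have hdm := Int.emod_add_mul_ediv p |q|
  have hr0 := Int.emod_nonneg p (show |q| ≠ 0 by linarith)
  have hr1 := Int.emod_lt_of_pos p (show 0 < |q| by linarith)
  set k := p / |q| with hk
  set r := p % |q| with hr
  constructor
  · -- -(2S/m) - 1 ≤ k
    by_contra hcon
    push Not at hcon
    have h1 : (2 * (S : ℤ) / m) < -k - 1 := by linarith
    have h2 : 2 * (S : ℤ) < (-k - 1) * m := by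
      rwa [Int.ediv_lt_iff_lt_mul (by linarith)] at h1
    -- (-k-1)|q| m > 2 S |q| ≥ |p| m
    have h3 : 2 * (S : ℤ) * |q| < (-k - 1) * m * |q| := mul_lt_mul_of_pos_right h2 (by linarith)
    have h4 : p < (k + 1) * |q| := by linarith
    have h5 : (-k - 1) * |q| < |p| := by linarith
    have h6 : (-k - 1) * |q| * m < |p| * m := mul_lt_mul_of_pos_right h5 (by linarith)
    nlinarith
  · rw [Int.le_ediv_iff_mul_le (by linarith)]
    by_contra hcon
    push Not at hcon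
    have h3 : 2 * (S : ℤ) * |q| < k * m * |q| := mul_lt_mul_of_pos_right hcon (by linarith)
    have h4 : k * |q| ≤ |p| := by linarith
    have h6 : k * |q| * m ≤ |p| * m := mul_le_mul_of_nonneg_right h4 (by linarith)
    nlinarith

noncomputable def CP (S n : ℕ) : Finset (ℤ × ℤ × ℤ) :=
  ((Finset.range (n + 1)) ×ˢ (Finset.Icc (-((2 * S / n : ℕ) : ℤ) - 1) ((2 * S / n : ℕ) : ℤ))).image
    fun x => ((x.1 : ℤ), (x.1 : ℤ) - n, x.2)

noncomputable def CM (a t m : ℕ) : Finset (ℤ × ℤ × ℤ) :=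
  ((Finset.Icc m ((a + 1) * m)) ×ˢ
    (Finset.Icc (-((2 * t / m : ℕ) : ℤ) - 1) ((2 * t / m : ℕ) : ℤ))).image
    fun x => ((m : ℤ), (x.1 : ℤ), x.2)

theorem card_Icc_k (k : ℕ) : (Finset.Icc (-(k : ℤ) - 1) (k : ℤ)).card = 2 * k + 2 := by
  rw [Int.card_Icc]
  omega

theorem card_CP (S n : ℕ) (hn : 1 ≤ n) (hnS : n ≤ S) : (CP S n).card ≤ 12 * S := by
  refine Finset.card_image_le.trans ?_
  rw [Finset.card_product, Finset.card_range, card_Icc_k]
  have h1 : 2 * S / n * n ≤ 2 * S := Nat.div_mul_le_self _ _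
  generalize 2 * S / n = k at *
  nlinarith

theorem card_CM (a t m : ℕ) (hm : 1 ≤ m) (hmt : m ≤ t) : (CM a t m).card ≤ 6 * (a + 1) * t := by
  refine Finset.card_image_le.trans ?_
  rw [Finset.card_product, Nat.card_Icc, card_Icc_k]
  have h1 : 2 * t / m * m ≤ 2 * t := Nat.div_mul_le_self _ _
  have h2 : (a + 1) * m + 1 - m ≤ (a + 1) * m := by
    have : (a + 1) * m = a * m + m := by ring
    omega
  calc _ ≤ (a + 1) * m * (2 * (2 * t / m) + 2) := Nat.mul_le_mul_right _ h2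
    _ = (a + 1) * (2 * (2 * t / m * m) + 2 * m) := by ring
    _ ≤ (a + 1) * (6 * t) := Nat.mul_le_mul_left _ (by omega)
    _ = _ := by ring

noncomputable def CC (a S t : ℕ) : Finset ((ℤ × ℤ) × (ℤ × ℤ × ℤ)) :=
  (({1, -1} : Finset ℤ) ×ˢ ({1, -1} : Finset ℤ)) ×ˢ
    (((Finset.Icc 1 S).biUnion (CP S)) ∪ ((Finset.Icc 1 t).biUnion (CM a t)))

theorem card_CC (a S t : ℕ) : (CC a S t).card ≤ 4 * (12 * S ^ 2 + 6 * (a + 1) * t ^ 2) := by
  rw [CC, Finset.card_product, Finset.card_product]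
  have h1 : ({1, -1} : Finset ℤ).card = 2 := by decide
  rw [h1]
  refine Nat.mul_le_mul_left 4 ?_
  refine (Finset.card_union_le _ _).trans (Nat.add_le_add ?_ ?_)
  · refine (Finset.card_biUnion_le_card_mul _ _ (12 * S) ?_).trans ?_
    · intro n hn
      exact card_CP S n (Finset.mem_Icc.1 hn).1 (Finset.mem_Icc.1 hn).2
    · rw [Nat.card_Icc, Nat.add_sub_cancel]
      exact le_of_eq (by ring)
  · refine (Finset.card_biUnion_le_card_mul _ _ (6 * (a + 1) * t) ?_).trans ?_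
    · intro n hn
      exact card_CM a t n (Finset.mem_Icc.1 hn).1 (Finset.mem_Icc.1 hn).2
    · rw [Nat.card_Icc, Nat.add_sub_cancel]
      exact le_of_eq (by ring)

theorem exists_code (a S t N : ℕ) (ha : 1 ≤ a) (hS : N ≤ S ^ 2) (ht : N ≤ a * t ^ 2)
    (haS : a + 2 ≤ S) (hat : a + 2 ≤ t) (M : Mat) (hdet : M.det = 1)
    (hN : ∀ i j, |M i j| ≤ (N : ℤ)) (hL : IsLLS [1, a] M) :
    M 1 0 ≠ 0 ∧ ∃ c ∈ CC a S t, Code (a + 2) M c.1.1 c.1.2 c.2.1 c.2.2.1 c.2.2.2 := by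
  obtain ⟨ε, δ, x, y, z, w, hε, hδ, hrep, htr⟩ := exists_rep a M hL
  have haZ : (1 : ℤ) ≤ a := by exact_mod_cast ha
  have hSZ : (N : ℤ) ≤ (S : ℤ) ^ 2 := by exact_mod_cast hS
  have htZ : (N : ℤ) ≤ a * (t : ℤ) ^ 2 := by exact_mod_cast ht
  have haSZ : (a : ℤ) + 2 ≤ S := by exact_mod_cast haS
  have hatZ : (a : ℤ) + 2 ≤ t := by exact_mod_cast hat
  have hεδ : ε * δ ≠ 0 := by
    rcases hε with h | h <;> rcases hδ with h' | h' <;> rw [h, h'] <;> norm_num
  have hεδabs : |ε * δ| = 1 := by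
    rcases hε with h | h <;> rcases hδ with h' | h' <;> rw [h, h'] <;> norm_num
  have hdet' := hdet
  rw [Matrix.det_fin_two] at hdet'
  have hq0 : M 1 0 ≠ 0 := by
    intro h0
    rw [h0, mul_zero, sub_zero] at hdet'
    rcases Int.isUnit_iff.1 (IsUnit.of_mul_eq_one _ hdet') with h | h
    · rw [h, one_mul] at hdet'
      rw [h, hdet'] at htr
      rcases hε with h | h <;> rw [h] at htr <;> linarith
    · rw [h] at hdet'
      have h2 : M 1 1 = -1 := by linarith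
      rw [h, h2] at htr
      rcases hε with h | h <;> rw [h] at htr <;> linarith
  refine ⟨hq0, ?_⟩
  have htr' : M 0 0 + M 1 1 = a + 2 ∨ M 0 0 + M 1 1 = -(a + 2) := by
    rcases hε with h | h <;> rw [h] at htr
    · left; linarith
    · right; linarith
  have hqpos : 1 ≤ |M 1 0| := Int.one_le_abs hq0
  have hεmem : ε ∈ ({1, -1} : Finset ℤ) := by
    rcases hε with h | h <;> simp [h]
  have hδmem : δ ∈ ({1, -1} : Finset ℤ) := by
    rcases hδ with h | h <;> simp [h]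
  have hf0 : z ^ 2 - (a + 2) * z * w + w ^ 2 ≠ 0 := by
    intro h
    apply hq0
    rw [hrep.2.2, h, mul_zero]
  rcases lt_or_gt_of_ne hf0 with hf | hf
  · obtain ⟨x, y, z, w, hrep, hz, hzw, hw⟩ := exists_neg (by linarith) hrep hf hεδ
    obtain ⟨m, rfl⟩ : ∃ m : ℕ, z = m := ⟨z.toNat, by omega⟩
    obtain ⟨w, rfl⟩ : ∃ m : ℕ, w = m := ⟨w.toNat, by omega⟩
    have hm1 : 1 ≤ m := by omega
    have hqabs : |M 1 0| = (a + 2) * m * w - (m : ℤ) ^ 2 - (w : ℤ) ^ 2 := by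
      rw [hrep.2.2, abs_mul, hεδabs, one_mul]
      have e : (a + 2) * (m : ℤ) * w - (m : ℤ) ^ 2 - (w : ℤ) ^ 2 =
        a * (m : ℤ) ^ 2 + (w - m) * (((a : ℤ) + 2 - 1) * m - w) := by ring
      have e0 : 0 ≤ ((w : ℤ) - m) * (((a : ℤ) + 2 - 1) * m - w) :=
        mul_nonneg (by linarith) (by linarith)
      have e1 : 0 ≤ a * (m : ℤ) ^ 2 := by positivity
      rw [abs_of_nonpos (by linarith)]
      ring
    have hqge : (m : ℤ) ^ 2 * a ≤ |M 1 0| := by
      rw [hqabs]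
      have e : (a + 2) * (m : ℤ) * w - (m : ℤ) ^ 2 - (w : ℤ) ^ 2 =
        (m : ℤ) ^ 2 * a + (w - m) * (((a : ℤ) + 2 - 1) * m - w) := by ring
      have e0 : 0 ≤ ((w : ℤ) - m) * (((a : ℤ) + 2 - 1) * m - w) :=
        mul_nonneg (by linarith) (by linarith)
      linarith
    have hmt : m ≤ t := by
      have h1 : (m : ℤ) ^ 2 * a ≤ a * (t : ℤ) ^ 2 := hqge.trans ((hN 1 0).trans htZ)
      have h2 : (m : ℤ) ^ 2 ≤ (t : ℤ) ^ 2 := by
        have : (a : ℤ) * (m : ℤ) ^ 2 ≤ a * (t : ℤ) ^ 2 := by linarith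
        exact le_of_mul_le_mul_left this (by linarith)
      have h3 : (m : ℤ) ≤ t := le_of_sq_le_sq h2 (by positivity)
      exact_mod_cast h3
    have hpb := p_bound (T := a + 2) (S := t) (N := N) (c := a) (m := m) hdet' htr' (by linarith)
      hatZ haZ (by exact_mod_cast hm1) hqge htZ (hN 0 1)
    have hk := k_range hm1 hqpos hpb
    refine ⟨((ε, δ), ((m : ℤ), (w : ℤ), M 0 0 / |M 1 0|)), ?_, ⟨x, y, hrep⟩, htr, rfl⟩
    refine Finset.mem_product.2 ⟨Finset.mem_product.2 ⟨hεmem, hδmem⟩, Finset.mem_union_right _ ?_⟩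
    refine Finset.mem_biUnion.2 ⟨m, Finset.mem_Icc.2 ⟨hm1, hmt⟩, ?_⟩
    refine Finset.mem_image.2 ⟨(w, M 0 0 / |M 1 0|), Finset.mem_product.2 ⟨?_, hk⟩, rfl⟩
    refine Finset.mem_Icc.2 ⟨by omega, ?_⟩
    have : (w : ℤ) ≤ (a + 1) * m := by linarith
    exact_mod_cast this
  · obtain ⟨x, y, z, w, hrep, hz, hw⟩ := exists_pos (by linarith) hrep hf hεδ
    obtain ⟨i, rfl⟩ : ∃ m : ℕ, z = m := ⟨z.toNat, by omega⟩
    obtain ⟨j, hj⟩ : ∃ m : ℕ, w = -(m : ℤ) := ⟨(-w).toNat, by omega⟩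
    subst hj
    have hqabs : |M 1 0| = (i : ℤ) ^ 2 + (a + 2) * i * j + (j : ℤ) ^ 2 := by
      rw [hrep.2.2, abs_mul, hεδabs, one_mul]
      have e : (i : ℤ) ^ 2 - (a + 2) * i * -(j : ℤ) + (-(j : ℤ)) ^ 2 =
        (i : ℤ) ^ 2 + (a + 2) * i * j + (j : ℤ) ^ 2 := by ring
      rw [e, abs_of_nonneg (by positivity)]
    have hij : 1 ≤ i + j := by
      by_contra hcon
      have h1 : i = 0 := by omega
      have h2 : j = 0 := by omega
      subst h1 h2
      rw [hqabs] at hqpos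
      norm_num at hqpos
    have hqge : ((i + j : ℕ) : ℤ) ^ 2 * 1 ≤ |M 1 0| := by
      rw [hqabs]
      push_cast
      have : 0 ≤ (a : ℤ) * (i * j) := by positivity
      nlinarith
    have hnS : i + j ≤ S := by
      have h1 : ((i + j : ℕ) : ℤ) ^ 2 ≤ (S : ℤ) ^ 2 := by
        have := hqge.trans ((hN 1 0).trans hSZ)
        linarith
      have h3 : ((i + j : ℕ) : ℤ) ≤ S := le_of_sq_le_sq h1 (by positivity)
      exact_mod_cast h3
    have hpb := p_bound (T := a + 2) (S := S) (N := N) (c := 1) (m := (i + j : ℕ)) hdet' htr'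
      (by linarith) haSZ le_rfl (by exact_mod_cast hij) hqge (by linarith) (hN 0 1)
    have hk := k_range hij hqpos hpb
    refine ⟨((ε, δ), ((i : ℤ), -(j : ℤ), M 0 0 / |M 1 0|)), ?_, ⟨x, y, hrep⟩, htr, rfl⟩
    refine Finset.mem_product.2 ⟨Finset.mem_product.2 ⟨hεmem, hδmem⟩, Finset.mem_union_left _ ?_⟩
    refine Finset.mem_biUnion.2 ⟨i + j, Finset.mem_Icc.2 ⟨hij, hnS⟩, ?_⟩
    refine Finset.mem_image.2 ⟨(i, M 0 0 / |M 1 0|), Finset.mem_product.2 ⟨?_, hk⟩, ?_⟩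
    · exact Finset.mem_range.2 (by omega)
    · push_cast
      ring_nf

theorem num_le (a S t N : ℕ) (ha : 1 ≤ a) (hS : N ≤ S ^ 2) (ht : N ≤ a * t ^ 2)
    (haS : a + 2 ≤ S) (hat : a + 2 ≤ t) :
    num N [1, a] ≤ 4 * (12 * S ^ 2 + 6 * (a + 1) * t ^ 2) := by
  classical
  refine le_trans ?_ (card_CC a S t)
  rw [← Set.ncard_coe_finset]
  have hex : ∀ M : Matrix.SpecialLinearGroup (Fin 2) ℤ, M ∈ {M : Matrix.SpecialLinearGroup (Fin 2) ℤ |
    (∀ i j, |(M : Mat) i j| ≤ (N : ℤ)) ∧ IsLLS [1, a] (M : Mat) ∧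
      ∃ M' : Mat, Returns (M : Mat) M' ∧ ColumnCond [1, a] M'} →
      ∃ c : (ℤ × ℤ) × (ℤ × ℤ × ℤ), c ∈ CC a S t ∧
        Code (a + 2) (M : Mat) c.1.1 c.1.2 c.2.1 c.2.2.1 c.2.2.2 ∧ (M : Mat) 1 0 ≠ 0 := by
    intro M hM
    obtain ⟨h0, c, hc, h⟩ := exists_code a S t N ha hS ht haS hat (M : Mat) M.2 hM.1 hM.2.1
    exact ⟨c, hc, h, h0⟩
  choose! f hf1 hf2 hf3 using hex
  refine Set.ncard_le_ncard_of_injOn f (fun M hM => hf1 M hM) ?_ (Finset.finite_toSet _)
  intro M hM M' hM' he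
  have h1 := hf2 M hM
  have h2 := hf2 M' hM'
  rw [← he] at h2
  have hδ : (f M).1.2 = 1 ∨ (f M).1.2 = -1 := by
    have := (Finset.mem_product.1 (Finset.mem_product.1 (hf1 M hM)).1).2
    simpa using this
  exact Subtype.ext (code_inj M.2 M'.2 hδ (hf3 M hM) h1 h2)

end Pool.Agent.R935.GKR
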